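import Mathlib

set_option autoImplicit false

namespace Pool.Agent.Results.MP_691331_co.Mono

open SimpleGraph

/-- `X` is independent and in monophonic position: an induced path (an induced copy of a path graph)
whose two ends lie in `X` has no inner vertex in `X` -/
def IndMP {V : Type} (G : SimpleGraph V) (X : Set V) : Prop :=
  G.IsIndepSet X ∧ ∀ (m : ℕ) (f : pathGraph (m + 1) ↪g G), f 0 ∈ X → f (Fin.last m) ∈ X →
    ∀ i, f i ∈ X → i = 0 ∨ i = Fin.last m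

/-- the least number of colours in a colouring whose classes are independent mp sets -/
noncomputable def chi {V : Type} (G : SimpleGraph V) : ℕ :=
  sInf {k | ∃ c : V → Fin k, ∀ i, IndMP G {v | c v = i}}

def E : List (Fin 13 × Fin 13) := [
    (0, 1), (0, 3), (0, 4), (0, 8), (0, 9), (0, 10), (0, 12), (1, 2), (1, 5), (1, 6), (2, 3),
    (2, 4), (2, 7), (2, 12), (3, 6), (4, 5), (5, 7), (5, 8), (5, 9), (5, 11), (6, 7), (6, 8),
    (6, 10), (6, 11)]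

def W : List (List (Fin 13) × ℕ) := [
    ([2, 12, 0, 10, 6], 2), ([2, 12, 0, 10, 6, 11], 2), ([2, 12, 0, 10, 6, 11], 3),
    ([2, 12, 0, 9, 5], 2), ([2, 7, 5, 9, 0, 10], 2), ([2, 3, 6, 11, 5], 2),
    ([2, 12, 0, 9, 5, 11], 3), ([2, 3, 6, 11, 5, 9], 2), ([2, 12, 0, 8, 6, 11], 3),
    ([2, 3, 6, 8, 5, 9], 3), ([2, 7, 6, 10, 0, 9], 3), ([2, 7, 5, 8, 0, 10], 3),
    ([6, 10, 0, 9, 5], 2), ([6, 3, 2, 4, 5, 9], 3), ([6, 11, 5, 9, 0, 12], 2),
    ([6, 11, 5, 9, 0, 12], 3), ([6, 11, 5, 4, 2, 12], 3), ([0, 12, 2, 7, 6, 11], 3),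
    ([5, 11, 6, 10, 0, 12], 3), ([5, 11, 6, 3, 2, 12], 3), ([5, 7, 2, 3, 0, 10], 3),
    ([12, 2, 3, 6, 10], 2), ([12, 2, 3, 6, 11, 5, 9], 2), ([12, 2, 3, 6, 8, 5, 9], 4),
    ([12, 2, 7, 6, 10], 2), ([12, 2, 7, 6, 11], 2), ([12, 2, 7, 5, 9], 2), ([12, 2, 4, 5, 11], 2),
    ([12, 2, 4, 5, 11, 6, 10], 2), ([12, 2, 4, 5, 9], 2), ([12, 2, 4, 5, 8, 6, 10], 4),
    ([12, 2, 1, 6, 10], 2), ([12, 2, 1, 5, 9], 2), ([12, 0, 4, 5, 7], 2), ([12, 0, 8, 6, 11], 2),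
    ([10, 6, 3, 2, 4], 2), ([10, 6, 3, 2, 4, 5, 9], 2), ([10, 6, 3, 2, 4, 5, 9], 4),
    ([10, 6, 11, 5, 4], 2), ([10, 6, 7, 2, 4], 2), ([10, 6, 7, 5, 9], 2), ([10, 6, 8, 5, 9], 2),
    ([10, 6, 8, 5, 4], 2), ([10, 6, 1, 2, 4], 2), ([10, 6, 1, 5, 9], 2),
    ([10, 0, 12, 2, 7, 5, 11], 4), ([10, 0, 3, 2, 7], 2), ([10, 0, 3, 2, 7, 5, 11], 2),
    ([10, 0, 8, 5, 11], 2), ([10, 0, 8, 5, 7], 2), ([10, 0, 1, 2, 7], 2), ([10, 0, 1, 5, 11], 2),
    ([3, 2, 7, 5, 9], 2), ([3, 2, 7, 5, 8], 2), ([3, 2, 4, 5, 8], 2), ([3, 2, 1, 5, 11], 2),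
    ([3, 2, 1, 5, 8], 2), ([3, 6, 11, 5, 9], 2), ([3, 6, 7, 5, 4], 2), ([3, 6, 8, 5, 9], 2),
    ([3, 6, 1, 5, 4], 2), ([3, 0, 1, 5, 7], 2), ([11, 6, 7, 2, 12, 0, 9], 2),
    ([11, 6, 7, 2, 4, 0, 9], 4), ([11, 6, 1, 2, 4], 2), ([11, 6, 1, 0, 9], 2),
    ([7, 2, 4, 0, 9], 2), ([7, 2, 4, 0, 8], 2), ([7, 2, 1, 0, 8], 2), ([7, 6, 1, 0, 4], 2),
    ([4, 2, 1, 6, 8], 2)]

def G : SimpleGraph (Fin 13) := fromRel fun a b => (a, b) ∈ E

instance : DecidableRel G.Adj := fun a b => decidable_of_iff _ (fromRel_adj _ a b).symm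

def C : List (ℕ × ℕ × ℕ) := E.map (fun e => (e.1.1, e.2.1, e.2.1)) ++
  W.map fun p => ((p.1.getD 0 0).1, (p.1.getD (p.1.length - 1) 0).1, (p.1.getD p.2 0).1)

def K : List (List (ℕ × ℕ × ℕ)) := [
    [],
    [(0, 1, 1)],
    [(1, 2, 2)],
    [(0, 3, 3), (2, 3, 3)],
    [(0, 4, 4), (2, 4, 4), (3, 4, 1)],
    [(1, 5, 5), (4, 5, 5), (2, 5, 0)],
    [(1, 6, 6), (3, 6, 6), (2, 6, 0), (2, 5, 6), (6, 5, 0)],
    [(2, 7, 7), (5, 7, 7), (6, 7, 7), (3, 4, 7), (3, 7, 1), (7, 4, 1)],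
    [(0, 8, 8), (5, 8, 8), (6, 8, 8), (3, 8, 7), (3, 8, 4), (3, 8, 1), (7, 8, 4), (7, 8, 1),
    (4, 8, 1)],
    [(0, 9, 9), (5, 9, 9), (2, 9, 6), (2, 9, 8), (6, 9, 4), (3, 9, 7), (3, 9, 8), (7, 9, 4)],
    [(0, 10, 10), (6, 10, 10), (2, 10, 5), (2, 9, 10), (2, 10, 8), (5, 10, 3), (10, 4, 3),
    (10, 9, 3), (10, 9, 4), (10, 4, 7), (10, 9, 7), (10, 9, 8), (10, 4, 8), (10, 4, 1), (10, 9, 1),
    (10, 7, 3), (10, 7, 8), (10, 7, 1)],
    [(5, 11, 11), (6, 11, 11), (2, 11, 0), (2, 11, 10), (2, 11, 9), (2, 11, 8), (0, 11, 7),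
    (10, 4, 11), (10, 11, 7), (10, 11, 3), (10, 11, 8), (10, 11, 1), (3, 11, 1), (3, 9, 11),
    (11, 9, 7), (11, 9, 4), (11, 4, 1), (11, 9, 1)],
    [(0, 12, 12), (2, 12, 12), (6, 12, 5), (6, 12, 9), (6, 12, 4), (5, 12, 10), (5, 12, 3),
    (12, 10, 3), (12, 9, 3), (12, 9, 8), (12, 10, 7), (12, 11, 7), (12, 9, 7), (12, 11, 4),
    (12, 10, 4), (12, 9, 4), (12, 10, 8), (12, 10, 1), (12, 9, 1), (12, 7, 4), (12, 11, 8)]]

def go : List (List (ℕ × ℕ × ℕ)) → ℕ → ℕ → (ℕ → ℕ) → Bool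
  | [], _, _, _ => false
  | L :: n, d, m, s => (List.range (min 5 (m + 1))).all fun x =>
    (L.any fun p => p.1 ≤ d && p.2.1 ≤ d && p.2.2 ≤ d &&
      (if p.1 = d then x else s p.1) == (if p.2.1 = d then x else s p.2.1) &&
      (if p.1 = d then x else s p.1) == (if p.2.2 = d then x else s p.2.2)) ||
    go n (d + 1) (max m (x + 1)) fun i => if i = d then x else s i

theorem go_ok (n : List (List (ℕ × ℕ × ℕ))) (hn : ∀ L ∈ n, ∀ p ∈ L, p ∈ C) : ∀ d m s, go n d m s = true → ∀ c : ℕ → ℕ, (∀ i, c i < 5) →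
    (∀ i < d, s i = c i ∧ s i < m) → ∃ p ∈ C, c p.1 = c p.2.1 ∧ c p.1 = c p.2.2 := by
  induction n with
  | nil => intro d m s h; simp [go] at h
  | cons L n ih =>
    intro d m s h
    have key : ∀ c : ℕ → ℕ, (∀ i, c i < 5) → (∀ i < d, s i = c i ∧ s i < m) → c d ≤ m →
        ∃ p ∈ C, c p.1 = c p.2.1 ∧ c p.1 = c p.2.2 := fun c h1 h2 h3 => by
      have e : ∀ i ≤ d, (if i = d then c d else s i) = c i := fun i hi => by
        split_ifs with k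
        · rw [k]
        · exact (h2 i (by omega)).1
      have := List.all_eq_true.mp h (c d) (by have := h1 d; simp only [List.mem_range]; omega)
      rcases Bool.or_eq_true_iff.mp this with k | k
      · obtain ⟨p, hp, k⟩ := List.any_eq_true.mp k
        simp only [Bool.and_eq_true, decide_eq_true_eq, beq_iff_eq] at k
        obtain ⟨⟨⟨⟨k1, k2⟩, k3⟩, k4⟩, k5⟩ := k
        rw [e _ k1, e _ k2] at k4
        rw [e _ k1, e _ k3] at k5
        exact ⟨p, hn L (by simp) p hp, k4, k5⟩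
      · refine ih (fun L h => hn L (by simp [h])) _ _ _ k c h1 fun i hi => ⟨e i (by omega), ?_⟩
        split_ifs with k
        · omega
        · have := (h2 i (by omega)).2
          omega
    intro c h1 h2
    by_cases k : c d ≤ m
    · exact key c h1 h2 k
    · have := h1 d
      obtain ⟨p, hp, a, b⟩ := key (fun i => Equiv.swap m (c d) (c i)) (fun i => by
        have := h1 i
        simp only [Equiv.swap_apply_def]
        split_ifs <;> omega) (fun i hi => by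
        have := h2 i hi
        simp only [Equiv.swap_apply_def]
        split_ifs <;> omega) (by simp)
      exact ⟨p, hp, (Equiv.injective _) a, (Equiv.injective _) b⟩

theorem hK : ∀ L ∈ K, ∀ p ∈ L, p ∈ C := by decide +kernel

theorem run : go K 0 0 (fun _ => 0) = true := by decide +kernel

theorem hW : ∀ p ∈ W, 0 < p.2 ∧ p.2 < p.1.length - 1 ∧ ∀ i j : Fin (p.1.length - 1 + 1),
    (G.Adj (p.1.getD i 0) (p.1.getD j 0) ↔ i.1 + 1 = j.1 ∨ j.1 + 1 = i.1) ∧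
      (p.1.getD i 0 = p.1.getD j 0 → i = j) := by decide +kernel

theorem chi_mem (H : SimpleGraph (Fin 13)) : ∃ c : Fin 13 → Fin (chi H), ∀ i, IndMP H {v | c v = i} :=
  Nat.sInf_mem (s := {k | ∃ c : Fin 13 → Fin k, ∀ i, IndMP H {v | c v = i}}) ⟨13, id, fun _ =>
    ⟨fun _ a _ b e => absurd (a.trans b.symm) e, fun _ f a _ _ b =>
      Or.inl (f.injective (b.trans a.symm))⟩⟩

theorem result : ∃ (n : ℕ) (H : SimpleGraph (Fin n)), n + 2 ≤ chi H + chi Hᶜ := by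
  refine ⟨13, G, ?_⟩
  have h1 : 6 ≤ chi G := by
    obtain ⟨c, hc⟩ := chi_mem G
    by_contra hn
    obtain ⟨p, hp, a, b⟩ := go_ok _ hK _ _ _ run (fun i => c (Fin.ofNat 13 i))
      (fun i => by have := (c (Fin.ofNat 13 i)).2; omega) (by simp)
    rcases List.mem_append.mp hp with k | k
    · obtain ⟨e, he, rfl⟩ := List.mem_map.mp k
      have : ∀ e ∈ E, G.Adj e.1 e.2 := by decide +kernel
      simp only [Fin.ofNat_val_eq_self, Fin.val_inj] at a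
      exact (hc (c e.2)).1 a rfl (this e he).ne (this e he)
    · obtain ⟨e, he, rfl⟩ := List.mem_map.mp k
      obtain ⟨k1, k2, k3⟩ := hW e he
      simp only [Fin.ofNat_val_eq_self, Fin.val_inj] at a b
      have := (hc (c (e.1.getD 0 0))).2 (e.1.length - 1)
        ⟨⟨fun i => e.1.getD i 0, fun i j => (k3 i j).2⟩, fun {i j} => by
          rw [pathGraph_adj]; exact (k3 i j).1⟩ rfl a.symm ⟨e.2, by omega⟩ b.symm
      simp only [Fin.ext_iff, Fin.val_last, Fin.val_zero] at this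
      omega
  have h2 : 9 ≤ chi Gᶜ := by
    obtain ⟨c, hc⟩ := chi_mem Gᶜ
    let e : Fin 9 → Fin 13 := ![1, 3, 4, 7, 8, 9, 10, 11, 12]
    have : ∀ i j, i ≠ j → e i ≠ e j ∧ ¬ G.Adj (e i) (e j) := by decide +kernel
    simpa using Fintype.card_le_of_injective (fun i => c (e i)) fun i j k => by_contra fun n =>
      (hc (c (e j))).1 k rfl (this i j n).1 (this i j n)
  omega

end Pool.Agent.Results.MP_691331_co.Mono
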